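import Pool.Agent.Q46.TS.Hom

set_option autoImplicit false

namespace Q46.TS

open Finset Filter Topology

theorem transport {V : Type*} [Fintype V] (H : SimpleGraph V) (m n : ℕ)
    (hn : n = Fintype.card V ^ (m + 1)) :
    ∃ G : SimpleGraph (Fin n), ∀ (W : Type) [Fintype W] (F : SimpleGraph W),
      Nat.card (F →g G) = Nat.card (F →g H) ^ (m + 1) := by
  classical
  have hc : Fintype.card (Fin (m + 1) → V) = n := by
    rw [Fintype.card_fun, Fintype.card_fin, hn]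
  let e : (Fin (m + 1) → V) ≃ Fin n := Fintype.equivFinOfCardEq hc
  refine ⟨(tp (Fin (m + 1)) H).map e, fun W _ F => ?_⟩
  rw [← card_hom_congr F (SimpleGraph.Iso.map e (tp (Fin (m + 1)) H)), card_hom_tp]
  simp

theorem no_bound (t : ℕ) {V : Type*} [Fintype V] (H : SimpleGraph V)
    (h1 : Fintype.card V ^ 2 < Nat.card ((⊤ : SimpleGraph (Fin 3)) →g H))
    (h2 : Nat.card (completeBipartiteGraph (Fin 3) (Fin t) →g H) * Fintype.card V ^ (2 * t) <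
      Nat.card ((⊤ : SimpleGraph (Fin 3)) →g H) ^ t * Fintype.card V ^ 3)
    (k0 : ℝ) (ε : ℕ → ℝ) (hε : Tendsto ε atTop (𝓝 0)) :
    ∃ (n : ℕ) (G : SimpleGraph (Fin n)) (k : ℝ), 0 < n ∧ 0 < k ∧ k0 ≤ k ∧
      (G.copyCount (⊤ : SimpleGraph (Fin 3)) : ℝ) = k * (n : ℝ) ^ 2 ∧
      (G.copyCount (completeBipartiteGraph (Fin 3) (Fin t)) : ℝ) < k ^ t * (n : ℝ) ^ (3 - ε n) := by
  classical
  obtain ⟨a, ha⟩ : ∃ a, a = Nat.card ((⊤ : SimpleGraph (Fin 3)) →g H) := ⟨_, rfl⟩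
  obtain ⟨b, hb⟩ : ∃ b, b = Nat.card (completeBipartiteGraph (Fin 3) (Fin t) →g H) := ⟨_, rfl⟩
  obtain ⟨v, hv⟩ : ∃ v, v = Fintype.card V := ⟨_, rfl⟩
  rw [← ha, ← hb, ← hv] at h2
  rw [← ha, ← hv] at h1
  have hv1 : 1 < v := by
    have : 0 < Nat.card ((⊤ : SimpleGraph (Fin 3)) →g H) := by rw [← ha]; omega
    obtain ⟨⟨f⟩, -⟩ := Nat.card_pos_iff.1 this
    have h3 : H.Adj (f 0) (f 1) := f.map_adj (by simp)
    rw [hv]
    exact Fintype.one_lt_card_iff.2 ⟨_, _, h3.ne⟩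
  have hvR : (1 : ℝ) < v := by exact_mod_cast hv1
  have hv0 : (0 : ℝ) < v := by linarith
  have ha0 : 0 < a := by omega
  have haR : (0 : ℝ) < a := by exact_mod_cast ha0
  have h1R : (v : ℝ) ^ 2 < a := by exact_mod_cast h1
  have h2R : (b : ℝ) * (v : ℝ) ^ (2 * t) < (a : ℝ) ^ t * (v : ℝ) ^ 3 := by exact_mod_cast h2
  obtain ⟨c, hc⟩ : ∃ c : ℝ, c = (a : ℝ) ^ t * (v : ℝ) ^ 3 := ⟨_, rfl⟩
  have hc0 : 0 < c := by rw [hc]; positivity
  obtain ⟨r, hr⟩ : ∃ r : ℝ, r = (b : ℝ) * (v : ℝ) ^ (2 * t) := ⟨_, rfl⟩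
  have hr0 : 0 ≤ r := by rw [hr]; positivity
  rw [← hr, ← hc] at h2R
  obtain ⟨σ, hσ0, hσ1, hσ⟩ : ∃ σ : ℝ, 0 < σ ∧ σ < 1 ∧ r ≤ σ ^ 2 * c := by
    refine ⟨Real.sqrt (max (r / c) (1 / 2)), Real.sqrt_pos.2 (lt_max_of_lt_right (by norm_num)), ?_, ?_⟩
    · rw [Real.sqrt_lt' one_pos, one_pow]
      exact max_lt ((div_lt_one hc0).2 h2R) (by norm_num)
    · rw [Real.sq_sqrt (le_max_of_le_right (by norm_num))]
      calc r = r / c * c := by field_simp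
        _ ≤ _ := mul_le_mul_of_nonneg_right (le_max_left _ _) hc0.le
  set δ : ℝ := - Real.log σ / Real.log v with hδ
  have hlogv : 0 < Real.log v := Real.log_pos hvR
  have hδ0 : 0 < δ := div_pos (by have := Real.log_neg hσ0 hσ1; linarith) hlogv
  have hvδ : (v : ℝ) ^ (-δ) = σ := by
    rw [Real.rpow_def_of_pos hv0, hδ]
    have : Real.log v * -(-Real.log σ / Real.log v) = Real.log σ := by field_simp
    rw [this, Real.exp_log hσ0]
  -- eventual conditions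
  have T1 : Tendsto (fun m : ℕ => v ^ (m + 1)) atTop atTop :=
    (tendsto_pow_atTop_atTop_of_one_lt hv1).comp (tendsto_add_atTop_nat 1)
  have E1 : ∀ᶠ m : ℕ in atTop, ε (v ^ (m + 1)) < δ :=
    (hε.comp T1).eventually (gt_mem_nhds hδ0)
  have T2 : Tendsto (fun m : ℕ => ((a : ℝ) / (v : ℝ) ^ 2) ^ (m + 1)) atTop atTop :=
    (tendsto_pow_atTop_atTop_of_one_lt (by rw [one_lt_div (by positivity)]; exact h1R)).comp
      (tendsto_add_atTop_nat 1)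
  have E2 : ∀ᶠ m : ℕ in atTop, 6 * max k0 1 ≤ ((a : ℝ) / (v : ℝ) ^ 2) ^ (m + 1) :=
    T2.eventually (eventually_ge_atTop _)
  have T3 : Tendsto (fun m : ℕ => (6 : ℝ) ^ t * σ ^ (m + 1)) atTop (𝓝 ((6 : ℝ) ^ t * 0)) :=
    ((tendsto_pow_atTop_nhds_zero_of_lt_one hσ0.le hσ1).comp (tendsto_add_atTop_nat 1)).const_mul _
  rw [mul_zero] at T3
  have E3 : ∀ᶠ m : ℕ in atTop, (6 : ℝ) ^ t * σ ^ (m + 1) < 1 := T3.eventually (gt_mem_nhds one_pos)
  obtain ⟨m, e1, e2, e3⟩ := (E1.and (E2.and E3)).exists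
  obtain ⟨n, hn⟩ : ∃ n, n = v ^ (m + 1) := ⟨_, rfl⟩
  obtain ⟨G, hG⟩ := transport H m n (by rw [hn, hv])
  rw [← hn] at e1
  have hn0 : 0 < n := by rw [hn]; positivity
  have hnR : (1 : ℝ) ≤ n := by exact_mod_cast hn0
  have hnR0 : (0 : ℝ) < n := by linarith
  have hnv : (n : ℝ) = (v : ℝ) ^ (m + 1) := by rw [hn]; push_cast; ring
  have c1 : (a : ℝ) ^ (m + 1) ≤ 6 * (G.copyCount (⊤ : SimpleGraph (Fin 3)) : ℝ) := by
    have := triangle_le G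
    rw [hG, ← ha] at this
    exact_mod_cast this
  have c2 : (G.copyCount (completeBipartiteGraph (Fin 3) (Fin t)) : ℝ) ≤ (b : ℝ) ^ (m + 1) := by
    have := copyCount_le_hom (completeBipartiteGraph (Fin 3) (Fin t)) G
    rw [hG, ← hb] at this
    exact_mod_cast this
  obtain ⟨N3, hN3⟩ : ∃ N3 : ℝ, N3 = (G.copyCount (⊤ : SimpleGraph (Fin 3)) : ℝ) := ⟨_, rfl⟩
  rw [← hN3] at c1
  have k1 : ((a : ℝ) / (v : ℝ) ^ 2) ^ (m + 1) / 6 ≤ N3 / (n : ℝ) ^ 2 := by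
    rw [div_pow, div_div, div_le_div_iff₀ (by positivity) (by positivity), hnv, ← pow_mul, ← pow_mul,
      mul_comm (m + 1) 2]
    nlinarith [pow_pos hv0 (2 * (m + 1))]
  have k2 : max k0 1 ≤ N3 / (n : ℝ) ^ 2 := by linarith
  refine ⟨n, G, N3 / (n : ℝ) ^ 2, hn0, ?_, (le_max_left _ _).trans k2, ?_, ?_⟩
  · exact lt_of_lt_of_le one_pos ((le_max_right _ _).trans k2)
  · rw [← hN3]; field_simp
  · refine c2.trans_lt ?_
    have q1 : (n : ℝ) ^ (3 : ℕ) * σ ^ (m + 1) ≤ (n : ℝ) ^ (3 - ε n) := by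
      have : (n : ℝ) ^ (3 - ε n) = (n : ℝ) ^ (3 : ℕ) * (n : ℝ) ^ (- ε n) := by
        rw [sub_eq_add_neg, Real.rpow_add hnR0]; norm_num
      rw [this]
      refine mul_le_mul_of_nonneg_left ?_ (by positivity)
      have : σ ^ (m + 1) = (n : ℝ) ^ (-δ) := by
        rw [hnv, ← hvδ, ← Real.rpow_natCast, ← Real.rpow_natCast, ← Real.rpow_mul hv0.le,
          ← Real.rpow_mul hv0.le, mul_comm]
      rw [this]
      exact Real.rpow_le_rpow_of_exponent_le hnR (by linarith)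
    have q2 : ((a : ℝ) ^ (m + 1) / (6 * (n : ℝ) ^ 2)) ^ t ≤ (N3 / (n : ℝ) ^ 2) ^ t := by
      refine pow_le_pow_left₀ (by positivity) ?_ t
      rw [div_le_div_iff₀ (by positivity) (by positivity)]
      nlinarith [pow_pos hnR0 2]
    have q3 : (b : ℝ) ^ (m + 1) <
        ((a : ℝ) ^ (m + 1) / (6 * (n : ℝ) ^ 2)) ^ t * ((n : ℝ) ^ (3 : ℕ) * σ ^ (m + 1)) := by
      have q4 : ((a : ℝ) ^ (m + 1) / (6 * (n : ℝ) ^ 2)) ^ t * ((n : ℝ) ^ (3 : ℕ) * σ ^ (m + 1)) =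
          (c ^ (m + 1) * σ ^ (m + 1)) / (6 ^ t * (n : ℝ) ^ (2 * t)) := by
        rw [hc, div_pow, mul_pow, mul_pow, hnv]
        rw [← pow_mul, ← pow_mul, ← pow_mul, ← pow_mul, ← pow_mul, ← pow_mul, mul_comm (m + 1) t,
          mul_comm (m + 1) 3]
        ring
      rw [q4, lt_div_iff₀ (by positivity)]
      have q5 : (b : ℝ) ^ (m + 1) * (6 ^ t * (n : ℝ) ^ (2 * t)) = 6 ^ t * r ^ (m + 1) := by
        rw [hr, hnv, mul_pow, ← pow_mul, ← pow_mul, mul_comm (m + 1) (2 * t)]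
        ring
      rw [q5]
      calc (6 : ℝ) ^ t * r ^ (m + 1) ≤ 6 ^ t * (σ ^ 2 * c) ^ (m + 1) :=
            mul_le_mul_of_nonneg_left (pow_le_pow_left₀ hr0 hσ _) (by positivity)
        _ = (6 ^ t * σ ^ (m + 1)) * (c ^ (m + 1) * σ ^ (m + 1)) := by
            rw [mul_pow, ← pow_mul]; ring
        _ < 1 * (c ^ (m + 1) * σ ^ (m + 1)) :=
            mul_lt_mul_of_pos_right e3 (by positivity)
        _ = _ := one_mul _
    calc (b : ℝ) ^ (m + 1) < _ := q3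
      _ ≤ ((a : ℝ) ^ (m + 1) / (6 * (n : ℝ) ^ 2)) ^ t * (n : ℝ) ^ (3 - ε n) :=
          mul_le_mul_of_nonneg_left q1 (by positivity)
      _ ≤ _ := mul_le_mul_of_nonneg_right q2 (by positivity)

end Q46.TS
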