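import Pool.Agent.Q46.TS.Rand

set_option autoImplicit false
set_option linter.unusedSectionVars false

namespace Q46.TS

open Finset Filter Topology

theorem sum_block {W : Type*} [Fintype W] [DecidableEq W] (n : ℕ) (g : (W → Bool) → ℝ) :
    ∑ φ : W → Bool × Fin n, g (fun w => (φ w).1) = (n : ℝ) ^ (Fintype.card W) * ∑ c : W → Bool, g c := by
  rw [Fintype.sum_equiv (Equiv.arrowProdEquivProdArrow W (fun _ => Bool) (fun _ => Fin n)) (fun φ : W → Bool × Fin n => g (fun w => (φ w).1))
    (fun p : (W → Bool) × (W → Fin n) => g p.1) (fun φ => rfl)]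
  rw [Fintype.sum_prod_type, Finset.mul_sum]
  refine Finset.sum_congr rfl fun c _ => ?_
  simp

open Classical in
theorem noninj {V W : Type*} [Fintype V] [Fintype W] (hV : 0 < Fintype.card V) :
    (Nat.card {φ : W → V // ¬ Function.Injective φ} : ℝ) /
      (Fintype.card V : ℝ) ^ (Fintype.card W) =
      1 - ∏ j ∈ range (Fintype.card W), (1 - (j : ℝ) / (Fintype.card V : ℝ)) := by
  rw [Nat.card_eq_fintype_card, Fintype.card_subtype]
  have h1 : (univ.filter fun φ : W → V => Function.Injective φ).card =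
      (Fintype.card V).descFactorial (Fintype.card W) := by
    rw [← Fintype.card_embedding_eq, ← Fintype.card_subtype]
    exact Fintype.card_congr (Equiv.subtypeInjectiveEquivEmbedding W V)
  have h2 : (univ.filter fun φ : W → V => Function.Injective φ).card +
      (univ.filter fun φ : W → V => ¬ Function.Injective φ).card =
      (Fintype.card V) ^ (Fintype.card W) := by
    rw [Finset.card_filter_add_card_filter_not, Finset.card_univ, Fintype.card_fun]
  have h3 : (0 : ℝ) < (Fintype.card V : ℝ) ^ (Fintype.card W) := by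
    have : (0 : ℝ) < Fintype.card V := by exact_mod_cast hV
    positivity
  rw [← Q46.CD.descFact _ _ hV, ← h1]
  have h4 : ((univ.filter fun φ : W → V => Function.Injective φ).card : ℝ) +
      ((univ.filter fun φ : W → V => ¬ Function.Injective φ).card : ℝ) =
      (Fintype.card V : ℝ) ^ (Fintype.card W) := by exact_mod_cast h2
  rw [eq_sub_iff_add_eq, ← add_div, div_eq_one_iff_eq h3.ne', ← h4]
  ring

/-- thresholds of the block model -/
def wt (s n : ℕ) : Sym2 (Bool × Fin n) → ℕ :=
  Sym2.lift ⟨fun x y => if x.1 = y.1 then s + 1 else s - 1, fun x y => by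
    simp only [eq_comm]⟩

theorem wt_le (s n : ℕ) (hs : 0 < s) (e : Sym2 (Bool × Fin n)) : wt s n e ≤ 2 * s := by
  induction e using Sym2.ind with
  | _ x y =>
    simp only [wt, Sym2.lift_mk]
    split_ifs <;> omega

/-- block probabilities -/
noncomputable def pb (s : ℕ) (b c : Bool) : ℝ := (if b = c then (s : ℝ) + 1 else (s : ℝ) - 1) / (2 * s)

theorem wt_pb (s n : ℕ) (hs : 0 < s) (x y : Bool × Fin n) :
    ((wt s n s(x, y) : ℕ) : ℝ) / ((2 * s : ℕ) : ℝ) = pb s x.1 y.1 := by
  simp only [wt, Sym2.lift_mk, pb]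
  split_ifs
  · push_cast; rfl
  · push_cast [Nat.one_le_iff_ne_zero.2 hs.ne']; rfl

/-- limit density of a pattern -/
noncomputable def TT (s : ℕ) {W I : Type*} [Fintype W] [DecidableEq W] [Fintype I] (u v : I → W) : ℝ :=
  (∑ c : W → Bool, ∏ i, pb s (c (u i)) (c (v i))) / 2 ^ (Fintype.card W)

section pattern

variable {W I : Type*} [Fintype W] [DecidableEq W] [Fintype I] [DecidableEq I]

theorem expect_block (s n : ℕ) (hs : 0 < s) (hn : 0 < n) (u v : I → W)
    (huv : ∀ i, u i ≠ v i) (hinj : Function.Injective fun i => s(u i, v i)) :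
    |(∑ f : Sym2 (Bool × Fin n) → Fin (2 * s), (hm (2 * s) (wt s n) u v f : ℝ)) /
        ((2 * s : ℕ) : ℝ) ^ (Fintype.card (Sym2 (Bool × Fin n))) / ((2 * n : ℕ) : ℝ) ^ (Fintype.card W) -
      TT s u v| ≤ 1 - ∏ j ∈ range (Fintype.card W), (1 - (j : ℝ) / ((2 * n : ℕ) : ℝ)) := by
  classical
  have hN : Fintype.card (Bool × Fin n) = 2 * n := by simp
  have hNR : (0 : ℝ) < ((2 * n : ℕ) : ℝ) ^ (Fintype.card W) := by
    have : (0 : ℝ) < ((2 * n : ℕ) : ℝ) := by exact_mod_cast (by omega)
    positivity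
  have h1 := expect (2 * s) (by omega) (wt s n) (wt_le s n hs) u v huv hinj
  have h2 := noninj (V := Bool × Fin n) (W := W) (by rw [hN]; omega)
  rw [hN] at h2
  rw [← h2]
  have h3 : ∑ φ : W → Bool × Fin n, ∏ i, ((wt s n s(φ (u i), φ (v i)) : ℝ) / ((2 * s : ℕ) : ℝ)) =
      ((2 * n : ℕ) : ℝ) ^ (Fintype.card W) * TT s u v := by
    have := sum_block (W := W) n (fun c => ∏ i, pb s (c (u i)) (c (v i)))
    simp only [wt_pb s n hs]
    rw [this]
    unfold TT
    push_cast
    rw [mul_pow]
    field_simp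
  rw [h3] at h1
  have h4 : ∀ A : ℝ, A / ((2 * n : ℕ) : ℝ) ^ (Fintype.card W) - TT s u v =
      (A - ((2 * n : ℕ) : ℝ) ^ (Fintype.card W) * TT s u v) / ((2 * n : ℕ) : ℝ) ^ (Fintype.card W) := by
    intro A
    field_simp
  rw [h4, abs_div, abs_of_pos hNR]
  gcongr

end pattern

end Q46.TS
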