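import Pool.Agent.Q46.TS.Final

set_option autoImplicit false

namespace Q46.TS

open Finset Filter Topology

theorem key_ineq (t : ℕ) (ht : 1 ≤ t) :
    TT (4 * t) (ut t) (vt t) < (TT (4 * t) u3 v3) ^ t := by
  have ht' : (1 : ℝ) ≤ t := by exact_mod_cast ht
  have ht0 : (0 : ℝ) < t := by linarith
  rw [TTt _ _ (by omega), TT3 _ (by omega), div_pow]
  refine div_lt_div_of_pos_right ?_ (by positivity)
  push_cast
  set a : ℝ := 1 / (4 * (t : ℝ)) ^ 2 with ha
  have ha0 : 0 < a := by positivity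
  have hta : (t : ℝ) * a = 1 / (16 * t) := by rw [ha]; field_simp; norm_num
  have h16 : (1 : ℝ) / (16 * t) ≤ 1 / 16 := by
    apply div_le_div_of_nonneg_left (by norm_num) (by norm_num); linarith
  have e1 : (3 : ℝ) / (4 * (t : ℝ)) ^ 2 = 3 * a := by rw [ha]; ring
  rw [e1]
  have p1 : (1 + 3 * a) ^ t ≤ 1 + t * (3 * a) + (t * (3 * a)) ^ 2 := by
    have h1 : (1 + 3 * a) ^ t ≤ Real.exp (t * (3 * a)) := by
      rw [Real.exp_nat_mul]
      refine pow_le_pow_left₀ (by positivity) ?_ t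
      linarith [Real.add_one_le_exp (3 * a)]
    have h2 : |(t : ℝ) * (3 * a)| ≤ 1 := by
      rw [abs_of_nonneg (by positivity)]
      nlinarith
    have h3 := (abs_le.1 (Real.abs_exp_sub_one_sub_id_le h2)).2
    linarith
  have p2 : (1 - a) ^ t ≤ 1 - t * a + (t * a) ^ 2 := by
    have hale : a ≤ 1 := by
      have : a ≤ t * a := by nlinarith
      linarith
    have h1 : (1 - a) ^ t ≤ Real.exp (t * (-a)) := by
      rw [Real.exp_nat_mul]
      refine pow_le_pow_left₀ (by linarith) ?_ t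
      linarith [Real.add_one_le_exp (-a)]
    have h2 : |(t : ℝ) * (-a)| ≤ 1 := by
      rw [mul_neg, abs_neg, abs_of_nonneg (by positivity)]
      linarith
    have h3 := (abs_le.1 (Real.abs_exp_sub_one_sub_id_le h2)).2
    nlinarith
  have p3 : 1 + (t : ℝ) * (1 / (4 * (t : ℝ)) ^ 3) ≤ (1 + 1 / (4 * (t : ℝ)) ^ 3) ^ t :=
    one_add_mul_le_pow (by have : (0 : ℝ) < 1 / (4 * (t : ℝ)) ^ 3 := by positivity
                           linarith) t
  have p4 : (t : ℝ) * (1 / (4 * (t : ℝ)) ^ 3) = 4 * (t * a) ^ 2 := by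
    rw [hta]; field_simp; norm_num
  have p5 : 0 < (t * a) ^ 2 := by positivity
  nlinarith

theorem exists_H (t : ℕ) (ht : 1 ≤ t) : ∃ (n : ℕ) (H : SimpleGraph (Bool × Fin n)),
    Fintype.card (Bool × Fin n) ^ 2 < Nat.card ((⊤ : SimpleGraph (Fin 3)) →g H) ∧
    Nat.card (completeBipartiteGraph (Fin 3) (Fin t) →g H) * Fintype.card (Bool × Fin n) ^ (2 * t) <
      Nat.card ((⊤ : SimpleGraph (Fin 3)) →g H) ^ t * Fintype.card (Bool × Fin n) ^ 3 := by
  classical
  by_contra hcon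
  push Not at hcon
  set s := 4 * t with hs
  have hs0 : 0 < s := by omega
  set T3 := TT s u3 v3 with hT3
  set Tt := TT s (ut t) (vt t) with hTt
  have hkey : Tt < T3 ^ t := key_ineq t ht
  have hT3pos : 0 < T3 := by rw [hT3, TT3 s hs0]; positivity
  -- degenerate proportion
  let d : ℕ → ℕ → ℝ := fun k n => 1 - ∏ j ∈ range k, (1 - (j : ℝ) / ((2 * n : ℕ) : ℝ))
  have hd : ∀ k, Tendsto (d k) atTop (𝓝 0) := by
    intro k
    have h : Tendsto (fun n : ℕ => ∏ j ∈ range k, (1 - (j : ℝ) / ((2 * n : ℕ) : ℝ))) atTop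
        (𝓝 (∏ _j ∈ range k, (1 - 0 : ℝ))) := by
      refine tendsto_finsetProd _ fun j _ => ?_
      refine tendsto_const_nhds.sub ?_
      refine Tendsto.div_atTop tendsto_const_nhds ?_
      exact tendsto_natCast_atTop_atTop.comp
        (tendsto_id.const_mul_atTop' (by norm_num : 0 < 2))
    have h2 := (tendsto_const_nhds (x := (1 : ℝ))).sub h
    have h3 : (1 : ℝ) - ∏ _j ∈ range k, (1 - 0 : ℝ) = 0 := by simp
    rw [h3] at h2
    exact h2
  -- averaged inequality
  have main : ∀ n : ℕ, 0 < n → 0 ≤ T3 - d 3 n →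
      (T3 - d 3 n) ^ t ≤ Tt + d (3 + t) n + (1 / ((2 * n : ℕ) : ℝ)) ^ t := by
    intro n hn hpos
    have hNR : (0 : ℝ) < ((2 * n : ℕ) : ℝ) := by exact_mod_cast (by omega : 0 < 2 * n)
    set N : ℝ := ((2 * n : ℕ) : ℝ) with hN
    have hcard : Fintype.card (Bool × Fin n) = 2 * n := by simp
    set Q : ℝ := ((2 * s : ℕ) : ℝ) ^ (Fintype.card (Sym2 (Bool × Fin n))) with hQ
    have hQ0 : 0 < Q := by
      have : (0 : ℝ) < ((2 * s : ℕ) : ℝ) := by exact_mod_cast (by omega : 0 < 2 * s)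
      positivity
    let Y : (Sym2 (Bool × Fin n) → Fin (2 * s)) → ℝ := fun f => (hm (2 * s) (wt s n) u3 v3 f : ℝ) / N ^ 3
    let X : (Sym2 (Bool × Fin n) → Fin (2 * s)) → ℝ := fun f =>
      (hm (2 * s) (wt s n) (ut t) (vt t) f : ℝ) / N ^ (3 + t)
    have hXY : ∀ f, (Y f) ^ t ≤ X f + (1 / N) ^ t := by
      intro f
      by_contra hlt
      push Not at hlt
      have hY0 : 0 ≤ Y f := by positivity
      have hX0 : 0 ≤ X f := by positivity
      have h1 : 1 / N < Y f := by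
        refine lt_of_pow_lt_pow_left₀ t hY0 ?_
        linarith
      have h2 : X f < Y f ^ t := by
        have : 0 < (1 / N) ^ t := by positivity
        linarith
      have h3 : N ^ 2 < (hm (2 * s) (wt s n) u3 v3 f : ℝ) := by
        have : 1 / N < (hm (2 * s) (wt s n) u3 v3 f : ℝ) / N ^ 3 := h1
        rw [div_lt_div_iff₀ hNR (by positivity)] at this
        have h4 : N * N ^ 2 < N * (hm (2 * s) (wt s n) u3 v3 f : ℝ) := by nlinarith
        exact lt_of_mul_lt_mul_left h4 hNR.le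
      have h4 : (hm (2 * s) (wt s n) (ut t) (vt t) f : ℝ) * N ^ (2 * t) <
          (hm (2 * s) (wt s n) u3 v3 f : ℝ) ^ t * N ^ 3 := by
        have h5 : (hm (2 * s) (wt s n) (ut t) (vt t) f : ℝ) / N ^ (3 + t) <
            ((hm (2 * s) (wt s n) u3 v3 f : ℝ) / N ^ 3) ^ t := h2
        rw [div_pow, div_lt_div_iff₀ (by positivity) (by positivity), ← pow_mul] at h5
        have e1 : N ^ (3 * t) = N ^ (2 * t) * N ^ t := by rw [← pow_add]; congr 1; ring
        have e2 : N ^ (3 + t) = N ^ 3 * N ^ t := pow_add _ _ _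
        rw [e1, e2] at h5
        refine lt_of_mul_lt_mul_right (a := N ^ t) ?_ (by positivity)
        linarith [h5]
      have h6 := hcon n (Gr (2 * s) (wt s n) f)
      rw [← hm_three, ← hm_t, hcard] at h6
      have h7 := h6 (by
        have : ((2 * n : ℕ) : ℝ) ^ 2 < (hm (2 * s) (wt s n) u3 v3 f : ℝ) := h3
        exact_mod_cast this)
      have h8 : (hm (2 * s) (wt s n) u3 v3 f : ℝ) ^ t * ((2 * n : ℕ) : ℝ) ^ 3 ≤
          (hm (2 * s) (wt s n) (ut t) (vt t) f : ℝ) * ((2 * n : ℕ) : ℝ) ^ (2 * t) := by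
        exact_mod_cast h7
      exact absurd h4 (not_lt.2 h8)
    have hcardf : Fintype.card (Sym2 (Bool × Fin n) → Fin (2 * s)) =
        (2 * s) ^ (Fintype.card (Sym2 (Bool × Fin n))) := by
      rw [Fintype.card_fun, Fintype.card_fin]
    have hw1 : ∑ _f : Sym2 (Bool × Fin n) → Fin (2 * s), (1 / Q) = 1 := by
      rw [Finset.sum_const, Finset.card_univ, hcardf, nsmul_eq_mul, hQ]
      push_cast
      rw [mul_one_div_cancel]
      have : (s : ℝ) ≠ 0 := by exact_mod_cast hs0.ne'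
      positivity
    have J := Real.pow_arith_mean_le_arith_mean_pow (univ : Finset (Sym2 (Bool × Fin n) → Fin (2 * s)))
      (fun _ => 1 / Q) Y (fun _ _ => by positivity) hw1 (fun f _ => by positivity) t
    have J2 : ∑ f : Sym2 (Bool × Fin n) → Fin (2 * s), 1 / Q * Y f ^ t ≤
        ∑ f : Sym2 (Bool × Fin n) → Fin (2 * s), (1 / Q * X f + 1 / Q * (1 / N) ^ t) :=
      Finset.sum_le_sum fun f _ => by
        rw [← mul_add]
        exact mul_le_mul_of_nonneg_left (hXY f) (by positivity)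
    rw [Finset.sum_add_distrib, ← Finset.sum_mul, hw1, one_mul] at J2
    have EY := expect_block s n hs0 hn u3 v3 uv3_ne uv3_inj
    have EX := expect_block s n hs0 hn (ut t) (vt t) (uvt_ne t) (uvt_inj t)
    rw [Fintype.card_fin] at EY
    rw [Fintype.card_sum, Fintype.card_fin, Fintype.card_fin] at EX
    have sY : ∑ f : Sym2 (Bool × Fin n) → Fin (2 * s), 1 / Q * Y f =
        (∑ f : Sym2 (Bool × Fin n) → Fin (2 * s), (hm (2 * s) (wt s n) u3 v3 f : ℝ)) / Q / N ^ 3 := by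
      rw [Finset.sum_div, Finset.sum_div]
      refine Finset.sum_congr rfl fun f _ => ?_
      show 1 / Q * ((hm (2 * s) (wt s n) u3 v3 f : ℝ) / N ^ 3) = _
      ring
    have sX : ∑ f : Sym2 (Bool × Fin n) → Fin (2 * s), 1 / Q * X f =
        (∑ f : Sym2 (Bool × Fin n) → Fin (2 * s), (hm (2 * s) (wt s n) (ut t) (vt t) f : ℝ)) / Q /
          N ^ (3 + t) := by
      rw [Finset.sum_div, Finset.sum_div]
      refine Finset.sum_congr rfl fun f _ => ?_
      show 1 / Q * ((hm (2 * s) (wt s n) (ut t) (vt t) f : ℝ) / N ^ (3 + t)) = _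
      ring
    have EY' := (abs_le.1 EY).1
    have EX' := (abs_le.1 EX).2
    have a1 : T3 - d 3 n ≤ ∑ f : Sym2 (Bool × Fin n) → Fin (2 * s), 1 / Q * Y f := by
      rw [sY]
      show T3 - (1 - ∏ j ∈ range 3, (1 - (j : ℝ) / ((2 * n : ℕ) : ℝ))) ≤ _
      linarith
    have a2 : ∑ f : Sym2 (Bool × Fin n) → Fin (2 * s), 1 / Q * X f ≤ Tt + d (3 + t) n := by
      rw [sX]
      show _ ≤ Tt + (1 - ∏ j ∈ range (3 + t), (1 - (j : ℝ) / ((2 * n : ℕ) : ℝ)))
      linarith
    calc (T3 - d 3 n) ^ t ≤ (∑ f : Sym2 (Bool × Fin n) → Fin (2 * s), 1 / Q * Y f) ^ t :=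
          pow_le_pow_left₀ hpos a1 t
      _ ≤ _ := J
      _ ≤ _ := J2
      _ ≤ _ := by linarith
  -- limit
  have L1 : Tendsto (fun n => (T3 - d 3 n) ^ t) atTop (𝓝 (T3 ^ t)) := by
    have := ((tendsto_const_nhds (x := T3)).sub (hd 3)).pow t
    simpa using this
  have L2 : Tendsto (fun n : ℕ => Tt + d (3 + t) n + (1 / ((2 * n : ℕ) : ℝ)) ^ t) atTop (𝓝 Tt) := by
    have h1 : Tendsto (fun n : ℕ => (1 / ((2 * n : ℕ) : ℝ)) ^ t) atTop (𝓝 0) := by
      have h2 : Tendsto (fun n : ℕ => 1 / ((2 * n : ℕ) : ℝ)) atTop (𝓝 0) := by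
        refine Tendsto.div_atTop tendsto_const_nhds ?_
        exact tendsto_natCast_atTop_atTop.comp
          (tendsto_id.const_mul_atTop' (by norm_num : 0 < 2))
      have h3 := h2.pow t
      rwa [zero_pow (by omega)] at h3
    have := ((tendsto_const_nhds (x := Tt)).add (hd (3 + t))).add h1
    simpa using this
  have hev : ∀ᶠ n in atTop, 0 ≤ T3 - d 3 n := by
    have : Tendsto (fun n => T3 - d 3 n) atTop (𝓝 T3) := by
      simpa using (tendsto_const_nhds (x := T3)).sub (hd 3)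
    filter_upwards [this.eventually (lt_mem_nhds hT3pos)] with n hn using hn.le
  have hle : T3 ^ t ≤ Tt := by
    refine le_of_tendsto_of_tendsto L1 L2 ?_
    filter_upwards [hev, eventually_gt_atTop 0] with n h1 h2 using main n h2 h1
  linarith

end Q46.TS
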