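import Pool.Agent.Q46.TS.Block

set_option autoImplicit false
set_option linter.unusedSectionVars false

namespace Q46.TS

open Finset Filter Topology

/-- triangle pattern -/
def u3 : Fin 3 → Fin 3 := ![0, 0, 1]
def v3 : Fin 3 → Fin 3 := ![1, 2, 2]

theorem uv3_ne : ∀ i, u3 i ≠ v3 i := by decide
theorem uv3_inj : Function.Injective fun i => s(u3 i, v3 i) := by decide

/-- pattern of the complete bipartite graph -/
def ut (t : ℕ) : Fin 3 × Fin t → Fin 3 ⊕ Fin t := fun i => Sum.inl i.1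
def vt (t : ℕ) : Fin 3 × Fin t → Fin 3 ⊕ Fin t := fun i => Sum.inr i.2

theorem uvt_ne (t : ℕ) : ∀ i, ut t i ≠ vt t i := by intro i; simp [ut, vt]
theorem uvt_inj (t : ℕ) : Function.Injective fun i => s(ut t i, vt t i) := by
  intro i j h
  simp only [ut, vt, Sym2.eq_iff] at h
  rcases h with ⟨h1, h2⟩ | ⟨h1, h2⟩
  · exact Prod.ext (Sum.inl_injective h1) (Sum.inr_injective h2)
  · exact absurd h1 (by simp)

section
variable {V : Type*} [Fintype V] [DecidableEq V]

theorem hm_three (q : ℕ) (w : Sym2 V → ℕ) (f : Sym2 V → Fin q) :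
    hm q w u3 v3 f = Nat.card ((⊤ : SimpleGraph (Fin 3)) →g Gr q w f) := by
  classical
  unfold hm
  rw [← Fintype.card_subtype, ← Nat.card_eq_fintype_card]
  refine Nat.card_congr
    { toFun := fun φ => ⟨φ.1, fun {a b} hab => ?_⟩
      invFun := fun g => ⟨g, fun i => g.map_adj (uv3_ne i)⟩
      left_inv := fun φ => rfl
      right_inv := fun g => rfl }
  have h0 := φ.2 0
  have h1 := φ.2 1
  have h2 := φ.2 2
  simp only [u3, v3, Matrix.cons_val_zero, Matrix.cons_val_one, Matrix.cons_val] at h0 h1 h2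
  have hab' : a ≠ b := hab
  fin_cases a <;> fin_cases b <;>
    first
    | exact absurd rfl hab'
    | exact h0
    | exact h1
    | exact h2
    | exact h0.symm
    | exact h1.symm
    | exact h2.symm

theorem hm_t (t q : ℕ) (w : Sym2 V → ℕ) (f : Sym2 V → Fin q) :
    hm q w (ut t) (vt t) f = Nat.card (completeBipartiteGraph (Fin 3) (Fin t) →g Gr q w f) := by
  classical
  unfold hm
  rw [← Fintype.card_subtype, ← Nat.card_eq_fintype_card]
  refine Nat.card_congr
    { toFun := fun φ => ⟨φ.1, fun {a b} hab => ?_⟩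
      invFun := fun g => ⟨g, fun i => g.map_adj (by simp [ut, vt])⟩
      left_inv := fun φ => rfl
      right_inv := fun g => rfl }
  rcases a with a | a <;> rcases b with b | b
  · simp at hab
  · exact φ.2 (a, b)
  · exact (φ.2 (b, a)).symm
  · simp at hab

end

/-- functions from three points -/
def e3 : (Fin 3 → Bool) ≃ Bool × Bool × Bool where
  toFun c := (c 0, c 1, c 2)
  invFun p := ![p.1, p.2.1, p.2.2]
  left_inv c := by
    funext i; fin_cases i <;> rfl
  right_inv p := rfl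

theorem sum3 (g : Bool → Bool → Bool → ℝ) :
    ∑ c : Fin 3 → Bool, g (c 0) (c 1) (c 2) = g true true true + g true true false +
      (g true false true + g true false false) + (g false true true + g false true false +
      (g false false true + g false false false)) := by
  rw [Fintype.sum_equiv e3 (fun c => g (c 0) (c 1) (c 2)) (fun p => g p.1 p.2.1 p.2.2)
    (fun c => rfl)]
  simp only [Fintype.sum_prod_type, Fintype.sum_bool]

theorem TT3 (s : ℕ) (hs : 0 < s) : TT s u3 v3 = (1 + 1 / (s : ℝ) ^ 3) / 8 := by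
  have hs' : (s : ℝ) ≠ 0 := by positivity
  unfold TT
  simp only [Fin.prod_univ_three, u3, v3, Matrix.cons_val_zero, Matrix.cons_val_one,
    Matrix.cons_val]
  rw [sum3 (fun a b c => pb s a b * pb s a c * pb s b c)]
  simp only [pb, Fintype.card_fin, if_true, Bool.true_eq_false, Bool.false_eq_true, if_false]
  field_simp
  ring

theorem TTt (s t : ℕ) (hs : 0 < s) : TT s (ut t) (vt t) =
    (1 / 4 * (1 + 3 / (s : ℝ) ^ 2) ^ t + 3 / 4 * (1 - 1 / (s : ℝ) ^ 2) ^ t) / 8 ^ t := by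
  have hs' : (s : ℝ) ≠ 0 := by positivity
  have h1 : ∑ c : Fin 3 ⊕ Fin t → Bool, ∏ i : Fin 3 × Fin t, pb s (c (ut t i)) (c (vt t i)) =
      ∑ a : Fin 3 → Bool, (∑ β : Bool, ∏ i : Fin 3, pb s (a i) β) ^ t := by
    rw [Fintype.sum_equiv (Equiv.sumArrowEquivProdArrow (Fin 3) (Fin t) Bool)
      (fun c => ∏ i : Fin 3 × Fin t, pb s (c (ut t i)) (c (vt t i)))
      (fun p => ∏ i : Fin 3 × Fin t, pb s (p.1 i.1) (p.2 i.2)) (fun c => rfl)]
    rw [Fintype.sum_prod_type]
    refine Finset.sum_congr rfl fun a _ => ?_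
    have h2 : ∀ b : Fin t → Bool, ∏ i : Fin 3 × Fin t, pb s (a i.1) (b i.2) =
        ∏ j : Fin t, ∏ i : Fin 3, pb s (a i) (b j) := by
      intro b
      rw [Fintype.prod_prod_type, Finset.prod_comm]
    simp only [h2]
    have h3 := Finset.prod_univ_sum (fun _ : Fin t => (univ : Finset Bool))
      (fun (_ : Fin t) (β : Bool) => ∏ i : Fin 3, pb s (a i) β)
    rw [Finset.prod_const, Finset.card_univ, Fintype.card_fin, Fintype.piFinset_univ] at h3
    rw [h3]
  unfold TT
  rw [h1]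
  simp only [Fin.prod_univ_three, Fintype.sum_bool]
  rw [sum3 (fun a b c => (pb s a true * pb s b true * pb s c true +
    pb s a false * pb s b false * pb s c false) ^ t)]
  simp only [pb, Fintype.card_sum, Fintype.card_fin, if_true, Bool.true_eq_false,
    Bool.false_eq_true, if_false]
  have hA : ((s : ℝ) + 1) / (2 * s) * (((s : ℝ) + 1) / (2 * s)) * (((s : ℝ) + 1) / (2 * s)) +
      ((s : ℝ) - 1) / (2 * s) * (((s : ℝ) - 1) / (2 * s)) * (((s : ℝ) - 1) / (2 * s)) =
      2 * ((1 + 3 / (s : ℝ) ^ 2) / 8) := by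
    field_simp; ring
  have hA' : ((s : ℝ) - 1) / (2 * s) * (((s : ℝ) - 1) / (2 * s)) * (((s : ℝ) - 1) / (2 * s)) +
      ((s : ℝ) + 1) / (2 * s) * (((s : ℝ) + 1) / (2 * s)) * (((s : ℝ) + 1) / (2 * s)) =
      2 * ((1 + 3 / (s : ℝ) ^ 2) / 8) := by
    field_simp; ring
  have hB : ∀ x y : ℝ, x = (s : ℝ) + 1 → y = (s : ℝ) - 1 →
      x / (2 * s) * (x / (2 * s)) * (y / (2 * s)) + y / (2 * s) * (y / (2 * s)) * (x / (2 * s)) =
        2 * ((1 - 1 / (s : ℝ) ^ 2) / 8) ∧
      x / (2 * s) * (y / (2 * s)) * (x / (2 * s)) + y / (2 * s) * (x / (2 * s)) * (y / (2 * s)) =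
        2 * ((1 - 1 / (s : ℝ) ^ 2) / 8) ∧
      y / (2 * s) * (x / (2 * s)) * (x / (2 * s)) + x / (2 * s) * (y / (2 * s)) * (y / (2 * s)) =
        2 * ((1 - 1 / (s : ℝ) ^ 2) / 8) ∧
      x / (2 * s) * (y / (2 * s)) * (y / (2 * s)) + y / (2 * s) * (x / (2 * s)) * (x / (2 * s)) =
        2 * ((1 - 1 / (s : ℝ) ^ 2) / 8) ∧
      y / (2 * s) * (x / (2 * s)) * (y / (2 * s)) + x / (2 * s) * (y / (2 * s)) * (x / (2 * s)) =
        2 * ((1 - 1 / (s : ℝ) ^ 2) / 8) ∧
      y / (2 * s) * (y / (2 * s)) * (x / (2 * s)) + x / (2 * s) * (x / (2 * s)) * (y / (2 * s)) =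
        2 * ((1 - 1 / (s : ℝ) ^ 2) / 8) := by
    rintro x y rfl rfl
    refine ⟨?_, ?_, ?_, ?_, ?_, ?_⟩ <;> (field_simp; ring)
  obtain ⟨b1, b2, b3, b4, b5, b6⟩ := hB _ _ rfl rfl
  rw [hA, hA', b1, b2, b3, b4, b5, b6]
  rw [mul_pow, mul_pow, div_pow, div_pow, pow_add]
  field_simp
  ring

end Q46.TS
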