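import Mathlib

set_option autoImplicit false

namespace Q46.TS

open Finset

/-- tensor power of a graph -/
def tp (ι : Type*) [Nonempty ι] {V : Type*} (G : SimpleGraph V) : SimpleGraph (ι → V) where
  Adj x y := ∀ j, G.Adj (x j) (y j)
  symm := ⟨fun _ _ h j => (h j).symm⟩
  loopless := ⟨fun _ h => G.irrefl (h (Classical.arbitrary ι))⟩

/-- homomorphisms to a tensor power -/
def homEquiv (ι : Type*) [Nonempty ι] {V W : Type*} (F : SimpleGraph W) (G : SimpleGraph V) :
    (F →g tp ι G) ≃ (ι → (F →g G)) where
  toFun f := fun j => ⟨fun w => f w j, fun h => f.map_adj h j⟩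
  invFun g := ⟨fun w j => g j w, fun h j => (g j).map_adj h⟩
  left_inv _ := rfl
  right_inv _ := rfl

theorem card_hom_tp (ι : Type*) [Nonempty ι] [Finite ι] {V W : Type*} [Finite V] [Finite W]
    (F : SimpleGraph W) (G : SimpleGraph V) :
    Nat.card (F →g tp ι G) = Nat.card (F →g G) ^ Nat.card ι := by
  rw [Nat.card_congr (homEquiv ι F G), Nat.card_fun]

/-- homomorphism numbers are invariant -/
theorem card_hom_congr {V V' W : Type*} (F : SimpleGraph W) {G : SimpleGraph V}
    {G' : SimpleGraph V'} (e : G ≃g G') : Nat.card (F →g G) = Nat.card (F →g G') := by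
  refine Nat.card_congr
    { toFun := fun f => e.toHom.comp f
      invFun := fun f => e.symm.toHom.comp f
      left_inv := fun f => ?_
      right_inv := fun f => ?_ }
  · ext w; simp
  · ext w; simp

theorem copyCount_le_hom {V W : Type*} [Fintype V] [Fintype W] (F : SimpleGraph W)
    (G : SimpleGraph V) : G.copyCount F ≤ Nat.card (F →g G) := by
  classical
  refine SimpleGraph.copyCount_le_labelledCopyCount.trans ?_
  unfold SimpleGraph.labelledCopyCount
  rw [← Nat.card_eq_fintype_card]
  exact Nat.card_le_card_of_injective (fun c : F.Copy G => c.toHom) (fun a b h => by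
    ext w
    exact congrArg (fun f : F →g G => f w) h)

theorem triangle_le {V : Type*} [Fintype V] (G : SimpleGraph V) :
    Nat.card ((⊤ : SimpleGraph (Fin 3)) →g G) ≤ 6 * G.copyCount (⊤ : SimpleGraph (Fin 3)) := by
  classical
  have h1 : Nat.card ((⊤ : SimpleGraph (Fin 3)) →g G) = Fintype.card ((⊤ : SimpleGraph (Fin 3)).Copy G) := by
    rw [← Nat.card_eq_fintype_card]
    refine Nat.card_congr
      { toFun := fun f => ⟨f, fun a b hab => ?_⟩
        invFun := fun c => c.toHom
        left_inv := fun f => rfl
        right_inv := fun c => rfl }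
    by_contra hne
    have : G.Adj (f a) (f b) := f.map_adj hne
    rw [hab] at this
    exact G.irrefl this
  rw [h1, SimpleGraph.copyCount_eq_card_image_copyToSubgraph, ← Finset.card_univ]
  refine Finset.card_le_mul_card_image _ 6 fun S hS => ?_
  -- fibres
  have h2 : ∀ c ∈ (Finset.univ.filter fun c : (⊤ : SimpleGraph (Fin 3)).Copy G => c.toSubgraph = S),
      ∀ i, c i ∈ S.verts := by
    intro c hc i
    rw [Finset.mem_filter] at hc
    rw [← hc.2]
    simp [SimpleGraph.Copy.toSubgraph]
  obtain ⟨c0, -, rfl⟩ := Finset.mem_image.1 hS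
  have h3 : Fintype.card (c0.toSubgraph.verts) = 3 := by
    have e1 : c0.toSubgraph.verts = Set.range c0 := by
      ext v; simp [SimpleGraph.Copy.toSubgraph]
    have e2 : Function.Injective (fun i => c0 i) := c0.injective
    have e3 := Nat.card_range_of_injective e2
    rw [← Nat.card_eq_fintype_card, e1]
    exact e3.trans (by simp)
  have h4 : (Finset.univ.filter fun c : (⊤ : SimpleGraph (Fin 3)).Copy G =>
      c.toSubgraph = c0.toSubgraph).card ≤ Fintype.card (Fin 3 ↪ c0.toSubgraph.verts) := by
    rw [← Finset.card_univ]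
    refine Finset.card_le_card_of_injOn
      (fun c => if h : ∀ i, c i ∈ c0.toSubgraph.verts then
        (⟨fun i => ⟨c i, h i⟩, fun a b hab => c.injective (congrArg Subtype.val hab)⟩ :
          Fin 3 ↪ c0.toSubgraph.verts) else ⟨fun i => ⟨c0 i, by simp [SimpleGraph.Copy.toSubgraph]⟩,
            fun a b hab => c0.injective (congrArg Subtype.val hab)⟩) (fun _ _ => by simp) ?_
    intro c hc c' hc' hcc
    have a1 := h2 c hc
    have a2 := h2 c' hc'
    simp only [a1, a2, implies_true, dif_pos] at hcc
    ext i
    have := congrArg (fun f : Fin 3 ↪ c0.toSubgraph.verts => ((f i : c0.toSubgraph.verts) : V)) hcc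
    exact this
  refine h4.trans ?_
  rw [Fintype.card_embedding_eq, h3, Fintype.card_fin]
  decide

end Q46.TS
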