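import Pool.Agent.Q46.TS.Asym
import Pool.Agent.Q46.CD.Max

set_option autoImplicit false
set_option linter.unusedSectionVars false

namespace Q46.TS

open Finset Filter Topology

section general

variable {V : Type*} [Fintype V] [DecidableEq V]

/-- the graph given by a colouring of the pairs and thresholds -/
def Gr (q : ℕ) (wt : Sym2 V → ℕ) (f : Sym2 V → Fin q) : SimpleGraph V where
  Adj x y := x ≠ y ∧ (f s(x, y) : ℕ) < wt s(x, y)
  symm := ⟨fun x y h => ⟨h.1.symm, by rw [Sym2.eq_swap]; exact h.2⟩⟩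
  loopless := ⟨fun _ h => h.1 rfl⟩

theorem count_f (q : ℕ) (hq : 0 < q) (wt : Sym2 V → ℕ) (hwt : ∀ e, wt e ≤ q) (E : Finset (Sym2 V)) :
    ((univ.filter fun f : Sym2 V → Fin q => ∀ e ∈ E, (f e : ℕ) < wt e).card : ℝ) /
      (q : ℝ) ^ (Fintype.card (Sym2 V)) = ∏ e ∈ E, ((wt e : ℝ) / q) := by
  have hq' : (q : ℝ) ≠ 0 := by positivity
  have h1 : (univ.filter fun f : Sym2 V → Fin q => ∀ e ∈ E, (f e : ℕ) < wt e) =
      Fintype.piFinset (fun e => if e ∈ E then univ.filter (fun c : Fin q => (c : ℕ) < wt e) else univ) := by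
    ext f
    simp only [mem_filter, mem_univ, true_and, Fintype.mem_piFinset]
    refine forall_congr' fun e => ?_
    by_cases h : e ∈ E <;> simp [h]
  have h2 : ∀ e, (univ.filter (fun c : Fin q => (c : ℕ) < wt e)).card = wt e := by
    intro e
    rw [Fin.card_filter_val_lt]
    exact min_eq_right (hwt e)
  rw [h1, Fintype.card_piFinset, ← Finset.card_univ, ← Finset.prod_const]
  push_cast
  rw [← Finset.prod_div_distrib, ← Finset.prod_subset (Finset.subset_univ E)]
  · refine Finset.prod_congr rfl fun e he => ?_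
    rw [if_pos he, h2]
  · intro e _ he
    rw [if_neg he, Finset.card_univ, Fintype.card_fin, div_self hq']

variable {W I : Type*} [Fintype W] [DecidableEq W] [Fintype I] [DecidableEq I]

open Classical in
/-- number of homomorphisms of the pattern -/
noncomputable def hm (q : ℕ) (wt : Sym2 V → ℕ) (u v : I → W) (f : Sym2 V → Fin q) : ℕ :=
  (univ.filter fun φ : W → V => ∀ i, (Gr q wt f).Adj (φ (u i)) (φ (v i))).card

open Classical in
theorem prob_inj (q : ℕ) (hq : 0 < q) (wt : Sym2 V → ℕ) (hwt : ∀ e, wt e ≤ q) (u v : I → W)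
    (huv : ∀ i, u i ≠ v i) (hinj : Function.Injective fun i => s(u i, v i)) (φ : W → V)
    (hφ : Function.Injective φ) :
    ((univ.filter fun f : Sym2 V → Fin q => ∀ i, (Gr q wt f).Adj (φ (u i)) (φ (v i))).card : ℝ) /
      (q : ℝ) ^ (Fintype.card (Sym2 V)) = ∏ i, ((wt s(φ (u i), φ (v i)) : ℝ) / q) := by
  have h0 : Function.Injective fun i => s(φ (u i), φ (v i)) := by
    have : (fun i => s(φ (u i), φ (v i))) = (Sym2.map φ) ∘ fun i => s(u i, v i) := by
      funext i; simp
    rw [this]
    exact (Sym2.map.injective hφ).comp hinj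
  have h1 : (univ.filter fun f : Sym2 V → Fin q => ∀ i, (Gr q wt f).Adj (φ (u i)) (φ (v i))) =
      (univ.filter fun f : Sym2 V → Fin q => ∀ e ∈ univ.image (fun i => s(φ (u i), φ (v i))),
        (f e : ℕ) < wt e) := by
    ext f
    simp only [mem_filter, mem_univ, true_and, mem_image, forall_exists_index, forall_apply_eq_imp_iff]
    exact forall_congr' fun i => ⟨fun h => h.2, fun h => ⟨fun h' => huv i (hφ h'), h⟩⟩
  rw [h1, count_f q hq wt hwt, Finset.prod_image (fun a _ b _ h => h0 h)]

open Classical in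
/-- expected number of homomorphisms, up to the degenerate maps -/
theorem expect (q : ℕ) (hq : 0 < q) (wt : Sym2 V → ℕ) (hwt : ∀ e, wt e ≤ q) (u v : I → W)
    (huv : ∀ i, u i ≠ v i) (hinj : Function.Injective fun i => s(u i, v i)) :
    |(∑ f : Sym2 V → Fin q, (hm q wt u v f : ℝ)) / (q : ℝ) ^ (Fintype.card (Sym2 V)) -
      ∑ φ : W → V, ∏ i, ((wt s(φ (u i), φ (v i)) : ℝ) / q)| ≤
    Nat.card {φ : W → V // ¬ Function.Injective φ} := by
  rw [Nat.card_eq_fintype_card, Fintype.card_subtype]
  have hqR : (0 : ℝ) < q := by exact_mod_cast hq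
  have h1 : (∑ f : Sym2 V → Fin q, (hm q wt u v f : ℝ)) =
      ∑ φ : W → V, ((univ.filter fun f : Sym2 V → Fin q =>
        ∀ i, (Gr q wt f).Adj (φ (u i)) (φ (v i))).card : ℝ) := by
    unfold hm
    simp only [Finset.card_filter]
    push_cast
    rw [Finset.sum_comm]
  rw [h1, Finset.sum_div, ← Finset.sum_sub_distrib]
  refine (Finset.abs_sum_le_sum_abs _ _).trans ?_
  rw [Finset.card_filter]
  push_cast
  refine Finset.sum_le_sum fun φ _ => ?_
  split_ifs with h
  · rw [prob_inj q hq wt hwt u v huv hinj φ h, sub_self, abs_zero]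
  · rw [abs_le]
    have a1 : 0 ≤ ((univ.filter fun f : Sym2 V → Fin q =>
        ∀ i, (Gr q wt f).Adj (φ (u i)) (φ (v i))).card : ℝ) / (q : ℝ) ^ (Fintype.card (Sym2 V)) := by
      positivity
    have a2 : ((univ.filter fun f : Sym2 V → Fin q =>
        ∀ i, (Gr q wt f).Adj (φ (u i)) (φ (v i))).card : ℝ) / (q : ℝ) ^ (Fintype.card (Sym2 V)) ≤ 1 := by
      rw [div_le_one (by positivity)]
      have := Finset.card_filter_le (univ : Finset (Sym2 V → Fin q))
        (fun f => ∀ i, (Gr q wt f).Adj (φ (u i)) (φ (v i)))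
      rw [Finset.card_univ, Fintype.card_fun, Fintype.card_fin] at this
      exact_mod_cast this
    have a3 : 0 ≤ ∏ i, ((wt s(φ (u i), φ (v i)) : ℝ) / q) :=
      Finset.prod_nonneg fun i _ => by positivity
    have a4 : ∏ i, ((wt s(φ (u i), φ (v i)) : ℝ) / q) ≤ 1 :=
      Finset.prod_le_one (fun i _ => by positivity) fun i _ => by
        rw [div_le_one hqR]
        exact_mod_cast hwt _
    constructor <;> linarith

end general

end Q46.TS
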